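import Mathlib

/-!
Families of subgroups from faithful permutation representations.
-/

set_option autoImplicit false

namespace Run7.h202.MLB

open Equiv

/-- `H` has a faithful permutation representation with orbits of lengths `m_i` and
`8 ∑ m_i (m_i + 1) ≤ |H|` -/
def SmallRep (H : Type) [Group H] : Prop :=
  ∃ (ι : Type) (_ : Fintype ι) (U : ι → Subgroup H), ⨅ i, (U i).normalCore = ⊥ ∧
    ∑ i, 8 * (U i).index * ((U i).index + 1) ≤ Nat.card H

theorem smallRep_of_perm (H : Type) [Group H] [Finite H] (m : ℕ) (φ : H →* Perm (Fin m))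
    (hφ : Function.Injective φ) (hc : 8 * m * (m + 1) ≤ Nat.card H) : SmallRep H := by
  classical
  let act : MulAction H (Fin m) := MulAction.compHom (Fin m) φ
  have hsm : ∀ (g : H) (x : Fin m), g • x = φ g x := fun g x => rfl
  let ι := MulAction.orbitRel.Quotient H (Fin m)
  let iF : Fintype ι := Fintype.ofFinite ι
  let U : ι → Subgroup H := fun o => MulAction.stabilizer H (Quotient.out o)
  have hidx : ∀ o : ι, (U o).index = Nat.card (MulAction.orbit H (Quotient.out o)) := fun o => by
    rw [MulAction.index_stabilizer]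
    rfl
  have hsum : ∑ o : ι, (U o).index = m := by
    have h1 := Nat.card_congr (MulAction.selfEquivSigmaOrbits H (Fin m))
    rw [Nat.card_sigma, Nat.card_eq_fintype_card, Fintype.card_fin] at h1
    rw [h1]
    exact Finset.sum_congr rfl fun o _ => hidx o
  refine ⟨ι, iF, U, ?_, ?_⟩
  · rw [eq_bot_iff]
    intro g hg
    rw [Subgroup.mem_iInf] at hg
    rw [Subgroup.mem_bot]
    apply hφ
    rw [map_one]
    ext x
    rw [← hsm]
    have h1 : (Quotient.out (⟦x⟧ : ι)) ∈ MulAction.orbit H x := by
      have : (⟦Quotient.out (⟦x⟧ : ι)⟧ : ι) = ⟦x⟧ := Quotient.out_eq _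
      exact MulAction.orbitRel_apply.1 (Quotient.exact this)
    obtain ⟨b, hb⟩ := h1
    change b • x = _ at hb
    have h2 : b * g * b⁻¹ ∈ U ⟦x⟧ := hg ⟦x⟧ b
    rw [MulAction.mem_stabilizer_iff, mul_smul, mul_smul, ← hb, inv_smul_smul] at h2
    have h3 : g • x = x := smul_left_cancel b h2
    rw [h3]
    rfl
  · refine le_trans ?_ hc
    have hle : ∀ o : ι, (U o).index ≤ m := fun o => by
      calc (U o).index ≤ ∑ o : ι, (U o).index :=
            Finset.single_le_sum (f := fun o : ι => (U o).index) (fun _ _ => Nat.zero_le _)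
              (Finset.mem_univ o)
        _ = m := hsum
    calc ∑ o, 8 * (U o).index * ((U o).index + 1)
        ≤ ∑ o, 8 * (U o).index * (m + 1) := by
          refine Finset.sum_le_sum fun o _ => ?_
          have := hle o
          gcongr
      _ = 8 * m * (m + 1) := by
          rw [← Finset.sum_mul, ← Finset.mul_sum, hsum]

theorem smallRep_pow (A : Type) [Group A] [Finite A] [Nontrivial A] (k : ℕ) (hk : 9 ≤ k) :
    SmallRep (Fin k → A) := by
  classical
  have ha : 2 ≤ Nat.card A := by
    have := Finite.one_lt_card (α := A)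
    omega
  refine ⟨Fin k, inferInstance, fun i => (Pi.evalMonoidHom (fun _ : Fin k => A) i).ker, ?_, ?_⟩
  · rw [eq_bot_iff]
    intro g hg
    rw [Subgroup.mem_iInf] at hg
    rw [Subgroup.mem_bot]
    funext i
    have h1 := Subgroup.normalCore_le _ (hg i)
    exact h1
  · have hidx : ∀ i : Fin k, (Pi.evalMonoidHom (fun _ : Fin k => A) i).ker.index = Nat.card A := by
      intro i
      rw [Subgroup.index_ker]
      have h1 : (Pi.evalMonoidHom (fun _ : Fin k => A) i).range = ⊤ := by
        rw [MonoidHom.range_eq_top]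
        intro a
        exact ⟨fun _ => a, rfl⟩
      rw [h1, Nat.card_congr (Subgroup.topEquiv (G := A)).toEquiv]
    rw [Finset.sum_congr rfl fun i _ => by rw [hidx i], Finset.sum_const, Finset.card_univ,
      Fintype.card_fin, smul_eq_mul, Nat.card_fun, Nat.card_eq_fintype_card (α := Fin k),
      Fintype.card_fin]
    obtain ⟨a, haa⟩ : ∃ a, a = Nat.card A := ⟨_, rfl⟩
    rw [← haa] at ha ⊢
    have key : ∀ j : ℕ, (j + 9) * (8 * a * (a + 1)) ≤ a ^ (j + 9) := by
      intro j
      induction j with
      | zero =>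
        have h7 : 2 ^ 7 ≤ a ^ 7 := Nat.pow_le_pow_left ha 7
        have h8 : a + 1 ≤ a * a := by nlinarith
        have h9 : 2 * (a + 1) ≤ 3 * a := by omega
        have h10 : (0 + 9) * (8 * a * (a + 1)) ≤ 108 * (a * a) := by nlinarith
        calc (0 + 9) * (8 * a * (a + 1)) ≤ 108 * (a * a) := h10
          _ ≤ a ^ 7 * (a * a) := Nat.mul_le_mul_right _ (by omega)
          _ = a ^ (0 + 9) := by ring
      | succ j ih =>
        calc (j + 1 + 9) * (8 * a * (a + 1)) ≤ (2 * (j + 9)) * (8 * a * (a + 1)) := by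
              gcongr; omega
          _ = 2 * ((j + 9) * (8 * a * (a + 1))) := by ring
          _ ≤ a * a ^ (j + 9) := Nat.mul_le_mul ha ih
          _ = a ^ (j + 1 + 9) := by ring
    obtain ⟨j, rfl⟩ : ∃ j, k = j + 9 := ⟨k - 9, by omega⟩
    exact key j

end Run7.h202.MLB
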