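import Pool.Agent.TH444.ML.Done

/-!
Few Galois extensions with group `H`, if `H` has a faithful permutation representation of small degree.
-/

set_option autoImplicit false

open NumberField Filter Topology Pool.Agent.TH444.ML

namespace Run7.h202.MLB

section
variable {K Ω : Type} [Field K] [NumberField K] [Field Ω] [Algebra K Ω]

open Pool.Agent.TH228.J3101 (nf one_le)

theorem main_fam (M : IntermediateField K Ω) [FiniteDimensional K M] [IsGalois K M] {H : Type}
    [Group H] [Finite H] (e : (M ≃ₐ[K] M) ≃* H) {ι : Type} (U : ι → Subgroup H)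
    (hU : ⨅ i, (U i).normalCore = ⊥) :
    ∃ F : ι → IntermediateField K Ω, (∀ i, FiniteDimensional K (F i) ∧
      Module.finrank K (F i) = (U i).index ∧ F i ≤ M ∧ dsc (F i) ^ Nat.card (U i) ≤ dsc M) ∧
      ∀ N : IntermediateField K Ω, Normal K N → (∀ i, F i ≤ N) → N ≤ M → N = M := by
  set V : ι → Subgroup (M ≃ₐ[K] M) := fun i => (U i).comap e.toMonoidHom with hV
  have hcV : ∀ i, Nat.card (V i) = Nat.card (U i) := fun i =>
    Nat.card_congr (e.subgroupMap (V i) |>.trans (MulEquiv.subgroupCongr (by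
      rw [hV]
      ext x
      simp only [Subgroup.mem_map, Subgroup.mem_comap]
      constructor
      · rintro ⟨y, hy, rfl⟩; exact hy
      · intro hx; exact ⟨e.symm x, by simpa using hx, by simp⟩))).toEquiv
  set F0 : ι → IntermediateField K M := fun i => IntermediateField.fixedField (V i) with hF0
  have h1 : ∀ i, Module.finrank (F0 i) M = Nat.card (U i) := fun i => by
    rw [hF0]
    change Module.finrank (IntermediateField.fixedField (V i)) M = _
    rw [IntermediateField.finrank_fixedField_eq_card, hcV]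
  have h2 : ∀ i, Module.finrank K (F0 i) = (U i).index := fun i => by
    have h3 := Module.finrank_mul_finrank K (F0 i) M
    rw [h1, ← IsGalois.card_aut_eq_finrank K M, Nat.card_congr e.toEquiv,
      ← Subgroup.index_mul_card (U i)] at h3
    exact Nat.eq_of_mul_eq_mul_right Nat.card_pos h3
  have hnM : NumberField M := nf M
  refine ⟨fun i => IntermediateField.lift (F0 i), fun i => ?_, ?_⟩
  · have hnF0 : NumberField (F0 i) := NumberField.of_module_finite K (F0 i)
    have hfd : FiniteDimensional K (IntermediateField.lift (F0 i)) :=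
      (IntermediateField.liftAlgEquiv (F0 i)).toLinearEquiv.finiteDimensional
    have hnF : NumberField (IntermediateField.lift (F0 i)) := nf _
    refine ⟨hfd, ?_, IntermediateField.lift_le _, ?_⟩
    · rw [← (IntermediateField.liftAlgEquiv (F0 i)).toLinearEquiv.finrank_eq, h2]
    · rw [Pool.Agent.TH228.J3101.dsc_eq, Pool.Agent.TH228.J3101.dsc_eq]
      have e1 : discr (IntermediateField.lift (F0 i)) = discr (F0 i) :=
        (discr_eq_discr_of_ringEquiv (F0 i) (IntermediateField.liftAlgEquiv (F0 i)).toRingEquiv).symm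
      rw [e1]
      have h3 := natAbs_discr_eq_absNorm_differentIdeal_mul_natAbs_discr_pow (F0 i) (𝓞 (F0 i)) M (𝓞 M)
      rw [h1] at h3
      have h4 : (discr M).natAbs ≠ 0 := Nat.one_le_iff_ne_zero.1 (one_le M)
      have h5 : (discr (F0 i)).natAbs ^ Nat.card (U i) ∣ (discr M).natAbs :=
        ⟨_, by rw [h3, mul_comm]⟩
      exact_mod_cast Nat.le_of_dvd (Nat.pos_of_ne_zero h4) h5
  · intro N hN hFN hNM
    set N' : IntermediateField K M := IntermediateField.restrict hNM with hN'
    have hnor : Normal K N' := Normal.of_algEquiv (IntermediateField.restrictAlgEquiv hNM)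
    have hgal : IsGalois K N' := ⟨⟩
    have hle : ∀ i, F0 i ≤ N' := by
      intro i x hx
      rw [hN', IntermediateField.mem_restrict]
      exact hFN i ((IntermediateField.mem_lift x).2 hx)
    have h6 : ∀ i, N'.fixingSubgroup ≤ V i := fun i => by
      have := IntermediateField.fixingSubgroup_le (hle i)
      rw [hF0] at this
      change N'.fixingSubgroup ≤ (IntermediateField.fixedField (V i)).fixingSubgroup at this
      rwa [IntermediateField.fixingSubgroup_fixedField] at this
    have h7 : N'.fixingSubgroup.map e.toMonoidHom ≤ ⨅ i, (U i).normalCore := by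
      refine le_iInf fun i => ?_
      have hn : (N'.fixingSubgroup.map e.toMonoidHom).Normal :=
        Subgroup.Normal.map inferInstance _ e.surjective
      rw [Subgroup.normal_le_normalCore, Subgroup.map_le_iff_le_comap]
      exact h6 i
    rw [hU, le_bot_iff, Subgroup.map_eq_bot_iff_of_injective _ e.injective] at h7
    have h8 : N' = ⊤ := by
      rw [← IsGalois.fixedField_fixingSubgroup N', h7, IntermediateField.fixedField_bot]
    apply le_antisymm hNM
    intro x hx
    have h9 : (⟨x, hx⟩ : M) ∈ N' := by rw [h8]; trivial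
    exact (IntermediateField.mem_restrict hNM ⟨x, hx⟩).1 h9

/-- the discriminants of the fields of degree `u` -/
theorem sum_fields (h : HermiteRel) [IsAlgClosure K Ω] (u : ℕ) : ∃ B : ℝ, 0 ≤ B ∧
    ∀ t : Finset (IntermediateField K Ω), (∀ F ∈ t, FiniteDimensional K F ∧
      Module.finrank K F = u) → ∑ F ∈ t, (1 : ℝ) / dsc F ^ (2 * u + 2) ≤ B := by
  classical
  obtain ⟨C, hC⟩ := h K Ω u
  have hsum2 : Summable (fun m : ℕ => (1 : ℝ) / (m : ℝ) ^ 2) :=
    Real.summable_one_div_nat_pow.2 (by norm_num)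
  refine ⟨|C| * ∑' m : ℕ, (1 : ℝ) / (m : ℝ) ^ 2, mul_nonneg (abs_nonneg _)
    (tsum_nonneg fun m => by positivity), fun t ht => ?_⟩
  set g : IntermediateField K Ω → ℕ := fun F => ⌊dsc F⌋₊ with hg
  have hgd : ∀ F ∈ t, dsc F = (g F : ℝ) ∧ 1 ≤ g F := by
    intro F hF
    have := (ht F hF).1
    have hn : NumberField F := nf F
    rw [hg]
    change dsc F = ((⌊dsc F⌋₊ : ℕ) : ℝ) ∧ 1 ≤ ⌊dsc F⌋₊
    rw [Pool.Agent.TH228.J3101.dsc_eq F, Nat.floor_natCast]
    exact ⟨rfl, one_le F⟩
  calc ∑ F ∈ t, (1 : ℝ) / dsc F ^ (2 * u + 2)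
      = ∑ F ∈ t, (1 : ℝ) / (g F : ℝ) ^ (2 * u + 2) :=
        Finset.sum_congr rfl fun F hF => by rw [(hgd F hF).1]
    _ = ∑ m ∈ t.image g, ∑ F ∈ t with g F = m, (1 : ℝ) / (g F : ℝ) ^ (2 * u + 2) :=
        (Finset.sum_fiberwise_of_maps_to (fun F hF => Finset.mem_image_of_mem g hF) _).symm
    _ ≤ ∑ m ∈ t.image g, |C| * ((1 : ℝ) / (m : ℝ) ^ 2) := by
        refine Finset.sum_le_sum fun m hm => ?_
        obtain ⟨F0, hF0, hF0'⟩ := Finset.mem_image.1 hm
        have hm1 : 1 ≤ m := hF0' ▸ (hgd F0 hF0).2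
        have hmpos : (0 : ℝ) < m := by exact_mod_cast hm1
        have e1 : ∑ F ∈ t with g F = m, (1 : ℝ) / (g F : ℝ) ^ (2 * u + 2) =
            ((t.filter (fun F => g F = m)).card : ℝ) * (1 / (m : ℝ) ^ (2 * u + 2)) := by
          rw [Finset.sum_congr rfl (g := fun _ => (1 : ℝ) / (m : ℝ) ^ (2 * u + 2)),
            Finset.sum_const, nsmul_eq_mul]
          intro F hF
          rw [(Finset.mem_filter.1 hF).2]
        have e2 : ((t.filter (fun F => g F = m)).card : ℝ) ≤ C * (m : ℝ) ^ (2 * u) := by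
          obtain ⟨hfin, hle⟩ := hC m (by exact_mod_cast hm1)
          refine le_trans ?_ hle
          have h1 : (t.filter (fun F => g F = m)).card ≤ Set.ncard {F : IntermediateField K Ω |
              FiniteDimensional K F ∧ Module.finrank K F = u ∧ dsc F ≤ (m : ℝ)} := by
            rw [← Set.ncard_coe_finset]
            refine Set.ncard_le_ncard ?_ hfin
            intro F hF
            rw [Finset.mem_coe, Finset.mem_filter] at hF
            refine ⟨(ht F hF.1).1, (ht F hF.1).2, ?_⟩
            rw [(hgd F hF.1).1, hF.2]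
          exact_mod_cast h1
        rw [e1]
        calc ((t.filter (fun F => g F = m)).card : ℝ) * (1 / (m : ℝ) ^ (2 * u + 2))
            ≤ (|C| * (m : ℝ) ^ (2 * u)) * (1 / (m : ℝ) ^ (2 * u + 2)) := by
              refine mul_le_mul_of_nonneg_right ?_ (by positivity)
              refine e2.trans ?_
              exact mul_le_mul_of_nonneg_right (le_abs_self C) (by positivity)
          _ = |C| * ((1 : ℝ) / (m : ℝ) ^ 2) := by
              rw [pow_add]
              field_simp
    _ = |C| * ∑ m ∈ t.image g, (1 : ℝ) / (m : ℝ) ^ 2 := by rw [Finset.mul_sum]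
    _ ≤ |C| * ∑' m : ℕ, (1 : ℝ) / (m : ℝ) ^ 2 := by
        refine mul_le_mul_of_nonneg_left ?_ (abs_nonneg C)
        exact hsum2.sum_le_tsum _ (fun m _ => by positivity)

end

theorem fewGalFam (h : HermiteRel) (K Ω : Type) [Field K] [NumberField K] [Field Ω] [Algebra K Ω]
    [IsAlgClosure K Ω] (H : Type) [Group H] [Finite H] {ι : Type} [Fintype ι]
    (U : ι → Subgroup H) (hU : ⨅ i, (U i).normalCore = ⊥)
    (hcard : ∑ i, 8 * (U i).index * ((U i).index + 1) ≤ Nat.card H) :
    Summable (fun M : Gal K Ω H => (dsc M.1) ^ (-(1 / 4) : ℝ)) := by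
  classical
  have key : ∀ M : Gal K Ω H, ∃ F : ι → IntermediateField K Ω, (∀ i, FiniteDimensional K (F i) ∧
      Module.finrank K (F i) = (U i).index ∧ F i ≤ M.1 ∧
      dsc (F i) ^ Nat.card (U i) ≤ dsc M.1) ∧
      ∀ N : IntermediateField K Ω, Normal K N → (∀ i, F i ≤ N) → N ≤ M.1 → N = M.1 := by
    rintro ⟨M, hfd, hg, ⟨e⟩⟩
    exact main_fam M e U hU
  choose F hF hN using key
  have inj : Function.Injective F := by
    intro M1 M2 h12
    have g1 : IsGalois K M1.1 := M1.2.2.1
    have g2 : IsGalois K M2.1 := M2.2.2.1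
    have hn : Normal K (M1.1 ⊓ M2.1 : IntermediateField K Ω) := inferInstance
    have e1 := hN M1 (M1.1 ⊓ M2.1) hn (fun i => le_inf (hF M1 i).2.2.1
      (by rw [h12]; exact (hF M2 i).2.2.1)) inf_le_left
    have e2 := hN M2 (M1.1 ⊓ M2.1) hn (fun i => le_inf
      (by rw [← h12]; exact (hF M1 i).2.2.1) (hF M2 i).2.2.1) inf_le_right
    exact Subtype.ext (e1.symm.trans e2)
  choose B hB0 hB using fun i : ι => sum_fields (K := K) (Ω := Ω) h (U i).index
  have hd1 : ∀ (M : Gal K Ω H) (i : ι), 1 ≤ dsc (F M i) := by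
    intro M i
    have := (hF M i).1
    have hn : NumberField (F M i) := Pool.Agent.TH228.J3101.nf _
    rw [Pool.Agent.TH228.J3101.dsc_eq]
    exact_mod_cast Pool.Agent.TH228.J3101.one_le _
  have hM1 : ∀ M : Gal K Ω H, 1 ≤ dsc M.1 := by
    intro M
    have : FiniteDimensional K M.1 := M.2.1
    have hn : NumberField M.1 := Pool.Agent.TH228.J3101.nf _
    rw [Pool.Agent.TH228.J3101.dsc_eq]
    exact_mod_cast Pool.Agent.TH228.J3101.one_le _
  -- the weights
  obtain ⟨θ, hθ⟩ : ∃ θ : ι → ℝ, θ = fun i => (8 * ((U i).index + 1) : ℝ) / Nat.card (U i) :=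
    ⟨_, rfl⟩
  have hHpos : (0 : ℝ) < Nat.card H := by exact_mod_cast Nat.card_pos
  have hUpos : ∀ i, (0 : ℝ) < Nat.card (U i) := fun i => by exact_mod_cast Nat.card_pos
  have hθs : ∑ i, θ i ≤ 1 := by
    have h1 : ∀ i, θ i = ((8 * (U i).index * ((U i).index + 1) : ℕ) : ℝ) / Nat.card H := by
      intro i
      have h2 : ((U i).index : ℝ) * Nat.card (U i) = Nat.card H := by
        exact_mod_cast Subgroup.index_mul_card (U i)
      have h3 : ((U i).index : ℝ) ≠ 0 := by
        exact_mod_cast Subgroup.index_ne_zero_of_finite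
      rw [hθ, ← h2]
      push_cast
      have := (hUpos i).ne'
      field_simp
    rw [Finset.sum_congr rfl fun i _ => h1 i, ← Finset.sum_div, div_le_one hHpos]
    exact_mod_cast hcard
  have hθ0 : ∀ i, 0 ≤ θ i := fun i => by rw [hθ]; positivity
  have hprod : ∀ M : Gal K Ω H, ∏ i, dsc (F M i) ^ (8 * ((U i).index + 1)) ≤ dsc M.1 := by
    intro M
    have h0 : 0 ≤ dsc M.1 := zero_le_one.trans (hM1 M)
    calc ∏ i, dsc (F M i) ^ (8 * ((U i).index + 1))
        ≤ ∏ i, (dsc M.1) ^ (θ i) := by
          refine Finset.prod_le_prod (fun i _ => pow_nonneg (zero_le_one.trans (hd1 M i)) _)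
            fun i _ => ?_
          have h1 : dsc (F M i) ^ (8 * ((U i).index + 1)) =
              (dsc (F M i) ^ Nat.card (U i)) ^ (θ i) := by
            rw [← Real.rpow_natCast, ← Real.rpow_natCast (dsc (F M i)) (Nat.card (U i)),
              ← Real.rpow_mul (zero_le_one.trans (hd1 M i)), hθ]
            congr 1
            have := (hUpos i).ne'
            push_cast
            field_simp
          rw [h1]
          exact Real.rpow_le_rpow (pow_nonneg (zero_le_one.trans (hd1 M i)) _)
            (hF M i).2.2.2 (hθ0 i)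
      _ = (dsc M.1) ^ (∑ i, θ i) := by
          rw [Real.rpow_sum_of_pos (lt_of_lt_of_le one_pos (hM1 M))]
      _ ≤ (dsc M.1) ^ (1 : ℝ) := Real.rpow_le_rpow_of_exponent_le (hM1 M) hθs
      _ = dsc M.1 := Real.rpow_one _
  have hbound : ∀ M : Gal K Ω H, (dsc M.1) ^ (-(1 / 4) : ℝ) ≤
      ∏ i, (1 : ℝ) / dsc (F M i) ^ (2 * (U i).index + 2) := by
    intro M
    have hpos : ∀ i, 0 < dsc (F M i) := fun i => lt_of_lt_of_le one_pos (hd1 M i)
    have hP : 0 < ∏ i, dsc (F M i) ^ (2 * (U i).index + 2) :=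
      Finset.prod_pos fun i _ => pow_pos (hpos i) _
    have h1 : ∏ i, dsc (F M i) ^ (8 * ((U i).index + 1)) =
        (∏ i, dsc (F M i) ^ (2 * (U i).index + 2)) ^ 4 := by
      rw [← Finset.prod_pow]
      refine Finset.prod_congr rfl fun i _ => ?_
      rw [← pow_mul]
      congr 1
      ring
    have h2 := hprod M
    rw [h1] at h2
    calc (dsc M.1) ^ (-(1 / 4) : ℝ)
        ≤ ((∏ i, dsc (F M i) ^ (2 * (U i).index + 2)) ^ 4) ^ (-(1 / 4) : ℝ) :=
          Real.rpow_le_rpow_of_nonpos (pow_pos hP 4) h2 (by norm_num)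
      _ = 1 / ∏ i, dsc (F M i) ^ (2 * (U i).index + 2) := by
          rw [← Real.rpow_natCast, ← Real.rpow_mul hP.le,
            show ((4 : ℕ) : ℝ) * (-(1 / 4)) = -1 by norm_num, Real.rpow_neg_one, one_div]
      _ = ∏ i, (1 : ℝ) / dsc (F M i) ^ (2 * (U i).index + 2) := by
          rw [Finset.prod_div_distrib, Finset.prod_const_one]
  refine Summable.of_nonneg_of_le (fun M => Real.rpow_nonneg (zero_le_one.trans (hM1 M)) _)
    hbound ?_
  refine summable_of_sum_le (c := ∏ i, B i) (fun M => Finset.prod_nonneg fun i _ =>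
    div_nonneg zero_le_one (pow_nonneg (zero_le_one.trans (hd1 M i)) _)) ?_
  intro s
  let w : ι → IntermediateField K Ω → ℝ := fun i E => (1 : ℝ) / dsc E ^ (2 * (U i).index + 2)
  let T : ι → Finset (IntermediateField K Ω) := fun i => s.image fun M => F M i
  have hwpos : ∀ i, ∀ E ∈ T i, 0 ≤ w i E := by
    intro i E hE
    obtain ⟨M, -, rfl⟩ := Finset.mem_image.1 hE
    exact div_nonneg zero_le_one (pow_nonneg (zero_le_one.trans (hd1 M i)) _)
  calc ∑ M ∈ s, ∏ i, (1 : ℝ) / dsc (F M i) ^ (2 * (U i).index + 2)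
      = ∑ p ∈ s.image F, ∏ i, w i (p i) := by
        rw [Finset.sum_image fun a _ b _ hab => inj hab]
    _ ≤ ∑ p ∈ Fintype.piFinset T, ∏ i, w i (p i) := by
        refine Finset.sum_le_sum_of_subset_of_nonneg ?_ ?_
        · intro p hp
          obtain ⟨M, hM, rfl⟩ := Finset.mem_image.1 hp
          rw [Fintype.mem_piFinset]
          exact fun i => Finset.mem_image_of_mem (fun M => F M i) hM
        · intro p hp _
          rw [Fintype.mem_piFinset] at hp
          exact Finset.prod_nonneg fun i _ => hwpos i _ (hp i)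
    _ = ∏ i, ∑ E ∈ T i, w i E := (Finset.prod_univ_sum T w).symm
    _ ≤ ∏ i, B i := by
        refine Finset.prod_le_prod (fun i _ => Finset.sum_nonneg fun E hE => hwpos i E hE)
          fun i _ => ?_
        refine hB i (T i) fun E hE => ?_
        obtain ⟨M, -, rfl⟩ := Finset.mem_image.1 hE
        exact ⟨(hF M i).1, (hF M i).2.1⟩

end Run7.h202.MLB
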