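import Pool.Agent.H33R2.V3
import Pool.Agent.H33R2.ThmC2
import Pool.Agent.H33R2.T3
import Pool.Agent.H880R2.Hilb.E1
import Pool.Agent.H793R2.HilbFin

/-!
Every finite group is a Galois group over all sufficiently large number fields.
-/

set_option autoImplicit false

open Polynomial

namespace Run7.h202.MLB

open H33

/-- number fields are Hilbertian -/
theorem hilb (K : Type) [Field K] [NumberField K] : Pool.Agent.H391R2.T4.HilbField K :=
  Pool.Agent.H793R2.HilbFin.taskE2 ℚ K Pool.Agent.H880R2.Hilb.taskE1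

/-- every finite group is a Galois group over `k(t)`, `k` algebraically closed -/
theorem over_closed (k : Type) [Field k] [CharZero k] [IsAlgClosed k] (G : Type) [Group G]
    [Finite G] : ∃ (F : Type) (_ : Field F) (_ : Algebra (RatFunc k) F),
      FiniteDimensional (RatFunc k) F ∧ IsGalois (RatFunc k) F ∧
        Nonempty ((F ≃ₐ[RatFunc k] F) ≃* G) := by
  have hexp : Monoid.exponent G ≠ 0 := Monoid.exponent_ne_zero_of_finite
  have : NeZero (Monoid.exponent G : k) := ⟨by exact_mod_cast hexp⟩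
  have : NeZero (Monoid.exponent G) := ⟨hexp⟩
  obtain ⟨ζ, hζ⟩ := HasEnoughRootsOfUnity.exists_primitiveRoot k (Monoid.exponent G)
  have hsub : Subsingleton (k ≃ₐ[k] k) := inferInstance
  let α : G →* (k ≃ₐ[k] k) := 1
  have hker : ∀ g : G, g ∈ (⊥ : Subgroup G) ⊔ α.ker := fun g =>
    (le_sup_right : α.ker ≤ ⊥ ⊔ α.ker) (by simp [α])
  have hss : Subsingleton (G ⧸ ((⊥ : Subgroup G) ⊔ α.ker)) := by
    refine ⟨fun a b => ?_⟩
    induction a using QuotientGroup.induction_on with
    | H a =>
      induction b using QuotientGroup.induction_on with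
      | H b => exact QuotientGroup.eq.2 (hker _)
  have hcyc : IsCyclic (G ⧸ ((⊥ : Subgroup G) ⊔ α.ker)) := isCyclic_of_subsingleton
  obtain ⟨F, iF, iA, i1, i2, i3, i4, fd, gal, γ, -⟩ := thmC k k k G (ample_of_isAlgClosed k) hζ α
    (fun x => ⟨1, Subsingleton.elim _ _⟩) ⊥ (by simp) hcyc
  exact ⟨F, iF, iA, fd, gal, ⟨γ⟩⟩

/-- rational functions with coefficients in the image of `ι` -/
theorem mem_range {K k : Type} [Field K] [Field k] (ι : K →+* k) (r : RatFunc k)
    (hn : ∀ i, r.num.coeff i ∈ ι.range) (hd : ∀ i, r.denom.coeff i ∈ ι.range) :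
    r ∈ (T3.rmap ι).range := by
  obtain ⟨p, hp⟩ : ∃ p : K[X], p.map ι = r.num := by
    have h : r.num ∈ Polynomial.lifts ι := (Polynomial.lifts_iff_coeff_lifts _).2 hn
    exact (Polynomial.mem_lifts _).1 h
  obtain ⟨q, hq⟩ : ∃ q : K[X], q.map ι = r.denom := by
    have h : r.denom ∈ Polynomial.lifts ι := (Polynomial.lifts_iff_coeff_lifts _).2 hd
    exact (Polynomial.mem_lifts _).1 h
  refine ⟨algebraMap K[X] (RatFunc K) p / algebraMap K[X] (RatFunc K) q, ?_⟩
  rw [map_div₀, T3.rmap_alg, T3.rmap_alg, hp, hq, RatFunc.num_div_denom]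

/-- descent to a subfield over which everything is defined -/
theorem descend_field (k : Type) [Field k] [CharZero k] (F : Type) [Field F]
    [Algebra (RatFunc k) F] [FiniteDimensional (RatFunc k) F] [IsGalois (RatFunc k) F] :
    ∃ T : Finset k, ∀ (K : Type) [Field K] (ι : K →+* k), (T : Set k) ⊆ ι.range →
      ∃ (F' : Type) (_ : Field F') (_ : Algebra (RatFunc K) F'),
        FiniteDimensional (RatFunc K) F' ∧ IsGalois (RatFunc K) F' ∧
          Nonempty ((F' ≃ₐ[RatFunc K] F') ≃* (F ≃ₐ[RatFunc k] F)) := by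
  classical
  obtain ⟨y, hy⟩ := Field.exists_primitive_element (RatFunc k) F
  obtain ⟨S, hS⟩ := spec_lemma y hy ∅
  have hint : IsIntegral (RatFunc k) y := IsIntegral.of_finite _ y
  let P := minpoly (RatFunc k) y
  let S' : Finset (RatFunc k) := S ∪ P.coeffs
  let T : Finset k := S'.biUnion fun r => r.num.coeffs ∪ r.denom.coeffs ∪ {0}
  refine ⟨T, fun K _ ι hT => ?_⟩
  have hmem : ∀ r ∈ S', r ∈ (T3.rmap ι).range := by
    intro r hr
    refine mem_range ι r (fun i => ?_) (fun i => ?_)
    · by_cases h : r.num.coeff i = 0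
      · rw [h]; exact zero_mem _
      · apply hT
        refine Finset.mem_coe.2 (Finset.mem_biUnion.2 ⟨r, hr, ?_⟩)
        exact Finset.mem_union_left _ (Finset.mem_union_left _ (Polynomial.coeff_mem_coeffs h))
    · by_cases h : r.denom.coeff i = 0
      · rw [h]; exact zero_mem _
      · apply hT
        refine Finset.mem_coe.2 (Finset.mem_biUnion.2 ⟨r, hr, ?_⟩)
        exact Finset.mem_union_left _ (Finset.mem_union_right _ (Polynomial.coeff_mem_coeffs h))
  let A : Subring (RatFunc k) := (T3.rmap ι).range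
  have hbij : Function.Bijective (T3.rmap ι).rangeRestrict :=
    ⟨fun a b h => (T3.rmap ι).injective (congrArg Subtype.val h),
      (T3.rmap ι).rangeRestrict_surjective⟩
  let e : RatFunc K ≃+* A := RingEquiv.ofBijective (T3.rmap ι).rangeRestrict hbij
  have he : ∀ a : A, T3.rmap ι (e.symm a) = a := by
    intro a
    have h := e.apply_symm_apply a
    exact congrArg Subtype.val h
  have hPc : (P.coeffs : Set (RatFunc k)) ⊆ A := by
    intro c hc
    exact hmem c (Finset.mem_union_right _ (Finset.mem_coe.1 hc))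
  let fA : Polynomial A := P.toSubring A hPc
  have hfA : fA.map A.subtype = P := Polynomial.map_toSubring P A hPc
  have hPm : P.Monic := minpoly.monic hint
  have hfm : fA.Monic := (Polynomial.monic_toSubring P A hPc).2 hPm
  have hcomp : (T3.rmap ι).comp (e.symm : A →+* RatFunc K) = A.subtype := by
    ext a
    exact he a
  have hirr : Irreducible (fA.map (e.symm : A →+* RatFunc K)) := by
    refine Polynomial.Monic.irreducible_of_irreducible_map (T3.rmap ι) _ (hfm.map _) ?_
    rw [Polynomial.map_map, hcomp, hfA]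
    exact minpoly.irreducible hint
  obtain ⟨F', i1, i2, h1, h2, ψ, -⟩ := hS A
    (fun s hs => hmem s (Finset.mem_union_left _ (Finset.mem_coe.1 hs))) (RatFunc K)
    (e.symm : A →+* RatFunc K) fA hfA hirr
  exact ⟨F', i1, i2, h1, h2, ⟨ψ.symm⟩⟩

/-- Hilbert irreducibility -/
theorem spec_field (K : Type) [Field K] [NumberField K] (G : Type) [Group G] [Finite G]
    (F : Type) [Field F] [Algebra (RatFunc K) F] [FiniteDimensional (RatFunc K) F]
    [IsGalois (RatFunc K) F] (γ : (F ≃ₐ[RatFunc K] F) ≃* G) :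
    ∃ (F' : Type) (_ : Field F') (_ : Algebra K F'), FiniteDimensional K F' ∧ IsGalois K F' ∧
      Nonempty ((F' ≃ₐ[K] F') ≃* G) := by
  let iK : Algebra K F := ((algebraMap (RatFunc K) F).comp (algebraMap K (RatFunc K))).toAlgebra
  have t1 : IsScalarTower K (RatFunc K) F := IsScalarTower.of_algebraMap_eq (fun _ => rfl)
  have t2 : IsScalarTower K K F := IsScalarTower.of_algebraMap_eq (fun _ => rfl)
  obtain ⟨F', i1, i2, i3, i4, h1, h2, γ', -⟩ := hilbert_spec K (hilb K) K G 1
    ⟨F, inferInstance, inferInstance, iK, iK, t1, t2, inferInstance, inferInstance, γ, by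
      intro σ x
      have h : (1 : G →* (K ≃ₐ[K] K)) (γ σ) x = x := rfl
      rw [h]
      exact σ.commutes (algebraMap K (RatFunc K) x)⟩
  exact ⟨F', i1, i2, h1, h2, ⟨γ'⟩⟩

theorem large_aux (k : Type) [Field k] [CharZero k] [IsAlgClosed k] [Algebra ℚ k]
    [Algebra.IsAlgebraic ℚ k] (G : Type) [Group G] [Finite G] :
    ∃ K₀ : IntermediateField ℚ k, FiniteDimensional ℚ K₀ ∧
      ∀ (K : Type) [Field K] [NumberField K], Nonempty (K₀ →+* K) →
        ∃ (F : Type) (_ : Field F) (_ : Algebra K F), FiniteDimensional K F ∧ IsGalois K F ∧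
          Nonempty ((F ≃ₐ[K] F) ≃* G) := by
  obtain ⟨F, _, _, _, _, ⟨γ⟩⟩ := over_closed k G
  obtain ⟨T, hT⟩ := descend_field k F
  refine ⟨IntermediateField.adjoin ℚ (T : Set k), ?_, ?_⟩
  · exact IntermediateField.finiteDimensional_adjoin fun x _ =>
      (Algebra.IsAlgebraic.isAlgebraic (R := ℚ) x).isIntegral
  · intro K _ _ ⟨j⟩
    let K₀ : IntermediateField ℚ k := IntermediateField.adjoin ℚ (T : Set k)
    let iA : Algebra K₀ K := j.toAlgebra
    have iT : IsScalarTower ℚ K₀ K := IsScalarTower.of_algebraMap_eq' (Subsingleton.elim _ _)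
    have iI : Algebra.IsAlgebraic K₀ K := Algebra.IsAlgebraic.tower_top (K := ℚ) K₀
    let ι : K →ₐ[K₀] k := IsAlgClosed.lift
    obtain ⟨F', _, _, _, _, ⟨ψ⟩⟩ := hT K (ι : K →+* k) (by
      intro x hx
      refine ⟨j ⟨x, IntermediateField.subset_adjoin _ _ hx⟩, ?_⟩
      exact ι.commutes ⟨x, IntermediateField.subset_adjoin _ _ hx⟩)
    exact spec_field K G F' (ψ.trans γ)

/-- every finite group is a Galois group over all sufficiently large number fields -/
theorem large (G : Type) [Group G] [Finite G] :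
    ∃ (K₀ : Type) (_ : Field K₀) (_ : NumberField K₀),
      ∀ (K : Type) [Field K] [NumberField K], Nonempty (K₀ →+* K) →
        ∃ (F : Type) (_ : Field F) (_ : Algebra K F), FiniteDimensional K F ∧ IsGalois K F ∧
          Nonempty ((F ≃ₐ[K] F) ≃* G) := by
  have h0 : ∀ i : Algebra ℚ (AlgebraicClosure ℚ),
      @Algebra.IsAlgebraic ℚ (AlgebraicClosure ℚ) _ _ i := by
    intro i
    have e : i = AlgebraicClosure.instAlgebra ℚ := Subsingleton.elim _ _
    rw [e]
    exact AlgebraicClosure.isAlgebraic ℚ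
  have h1 : Algebra.IsAlgebraic ℚ (AlgebraicClosure ℚ) := h0 _
  obtain ⟨K₀, h2, h3⟩ := large_aux (AlgebraicClosure ℚ) G
  exact ⟨K₀, inferInstance, ⟨⟩, h3⟩

end Run7.h202.MLB
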