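import Pool.Agent.TH444.ML.Done
import Pool.Agent.Run7.h202.MLB.Real

/-!
Indices and classes of the elements of `C₂ ≀ H`, and Galois groups inside an algebraic closure.
-/

set_option autoImplicit false

namespace Run7.h202.MLB

open Equiv

/-- a Galois extension inside the algebraic closure -/
theorem gal_nonempty (K : Type) [Field K] (H : Type) [Group H] (F : Type) [Field F] [Algebra K F]
    [FiniteDimensional K F] [IsGalois K F] (γ : (F ≃ₐ[K] F) ≃* H) :
    (Pool.Agent.TH444.ML.Gal K (AlgebraicClosure K) H).Nonempty := by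
  let φ : F →ₐ[K] AlgebraicClosure K := IsAlgClosed.lift
  let e : F ≃ₐ[K] φ.fieldRange := AlgEquiv.ofInjectiveField φ
  refine ⟨φ.fieldRange, ?_, IsGalois.of_algEquiv e, ⟨(AlgEquiv.autCongr e).symm.trans γ⟩⟩
  exact LinearEquiv.finiteDimensional e.toLinearEquiv

/-- the index: `n` minus the number of cycles, fixed points included -/
def ind {n : ℕ} (g : Perm (Fin n)) : ℕ := g.cycleType.sum - Multiset.card g.cycleType

theorem two_mul_card_le {s : Multiset ℕ} (h : ∀ a ∈ s, 2 ≤ a) : 2 * Multiset.card s ≤ s.sum := by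
  have := Multiset.card_nsmul_le_sum (s := s) h
  rwa [smul_eq_mul, mul_comm] at this

theorem one_le_ind {n : ℕ} {g : Perm (Fin n)} (hg : g ≠ 1) : 1 ≤ ind g := by
  have h1 := two_mul_card_le (s := g.cycleType) fun a ha => Perm.two_le_of_mem_cycleType ha
  have h2 : Multiset.card g.cycleType ≠ 0 := by
    rw [Ne, Perm.card_cycleType_eq_zero]
    exact hg
  unfold ind
  omega

theorem ind_eq_one {n : ℕ} {g : Perm (Fin n)} : ind g = 1 ↔ g.IsSwap := by
  rw [Perm.isSwap_iff_cycleType]
  constructor
  · intro h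
    have h1 := two_mul_card_le (s := g.cycleType) fun a ha => Perm.two_le_of_mem_cycleType ha
    have h2 : Multiset.card g.cycleType = 1 := by
      have h3 : Multiset.card g.cycleType ≠ 0 := by
        intro h0
        rw [Multiset.card_eq_zero] at h0
        unfold ind at h
        rw [h0] at h
        simp at h
      unfold ind at h
      omega
    obtain ⟨a, ha⟩ := Multiset.card_eq_one.1 h2
    unfold ind at h
    rw [ha] at h ⊢
    simp only [Multiset.sum_singleton, Multiset.card_singleton] at h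
    have : a = 2 := by omega
    rw [this]
  · intro h
    unfold ind
    rw [h]
    simp

section perm

variable {H : Type} [Group H] {n : ℕ} {G : Subgroup (Perm (Fin n))}
  {f : Fin n ≃ H × Bool}

/-- a transposition in `C₂ ≀ H` exchanges the two points of a block -/
theorem same_block (h2 : 2 ≤ Nat.card H)
    (hf : ∀ π : Perm (Fin n), π ∈ G ↔ ∃ h : H, ∀ i, (f (π i)).1 = h * (f i).1) {i j : Fin n}
    (hij : i ≠ j) (hg : swap i j ∈ G) : (f i).1 = (f j).1 ∧ (f j).2 = !(f i).2 := by
  obtain ⟨h, hh⟩ := (hf _).1 hg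
  have hn : n = 2 * Nat.card H := by
    have h1 := Nat.card_congr f
    rw [Nat.card_prod, Nat.card_eq_fintype_card, Fintype.card_fin] at h1
    rw [h1, mul_comm]
    simp
  obtain ⟨x, hxi, hxj⟩ : ∃ x : Fin n, x ≠ i ∧ x ≠ j := by
    by_contra hcon
    push Not at hcon
    have h3 : (Finset.univ : Finset (Fin n)) ⊆ {i, j} := by
      intro x _
      by_cases hx : x = i
      · simp [hx]
      · simp [hcon x hx]
    have h4 := Finset.card_le_card h3
    rw [Finset.card_univ, Fintype.card_fin] at h4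
    have h5 : ({i, j} : Finset (Fin n)).card ≤ 2 := Finset.card_le_two
    omega
  have h1 : h = 1 := by
    have := hh x
    rw [swap_apply_of_ne_of_ne hxi hxj] at this
    exact (mul_eq_right.1 this.symm)
  have h6 : (f i).1 = (f j).1 := by
    have := hh i
    rw [swap_apply_left, h1, one_mul] at this
    exact this.symm
  refine ⟨h6, ?_⟩
  have h7 : (f i).2 ≠ (f j).2 := fun h8 => hij (f.injective (Prod.ext h6 h8))
  revert h7
  cases (f i).2 <;> cases (f j).2 <;> simp

/-- all transpositions in `C₂ ≀ H` are conjugate -/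
theorem conj_swaps (h2 : 2 ≤ Nat.card H)
    (hf : ∀ π : Perm (Fin n), π ∈ G ↔ ∃ h : H, ∀ i, (f (π i)).1 = h * (f i).1)
    {i j i' j' : Fin n} (hij : i ≠ j) (hij' : i' ≠ j') (hg : swap i j ∈ G)
    (hg' : swap i' j' ∈ G) : ∃ x ∈ G, swap i' j' = x * swap i j * x⁻¹ := by
  obtain ⟨h1, h3⟩ := same_block h2 hf hij hg
  obtain ⟨h4, h5⟩ := same_block h2 hf hij' hg'
  let t : Perm (H × Bool) :=
    (Equiv.mulLeft ((f i').1 * (f i).1⁻¹)).prodCongr (Equiv.swap (f i).2 (f i').2)
  let x : Perm (Fin n) := f.trans (t.trans f.symm)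
  have hxi : x i = i' := by
    change f.symm (t (f i)) = i'
    rw [Equiv.symm_apply_eq]
    exact Prod.ext (by simp [t]) (by simp [t])
  have hxj : x j = j' := by
    change f.symm (t (f j)) = j'
    rw [Equiv.symm_apply_eq]
    refine Prod.ext ?_ ?_
    · change (f i').1 * (f i).1⁻¹ * (f j).1 = (f j').1
      rw [← h1, ← h4]
      simp
    · change Equiv.swap (f i).2 (f i').2 (f j).2 = (f j').2
      rw [h3, h5]
      cases (f i).2 <;> cases (f i').2 <;> decide
  refine ⟨x, (hf x).2 ⟨(f i').1 * (f i).1⁻¹, fun a => by simp [x, t]⟩, ?_⟩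
  calc swap i' j' = swap (x i) (x j) := by rw [hxi, hxj]
    _ = x * swap i j * x⁻¹ := Equiv.swap_apply_apply x i j

/-- there is a transposition in `C₂ ≀ H` -/
theorem exists_swap (hf : ∀ π : Perm (Fin n), π ∈ G ↔ ∃ h : H, ∀ i, (f (π i)).1 = h * (f i).1) :
    ∃ i j : Fin n, i ≠ j ∧ swap i j ∈ G := by
  refine ⟨f.symm (1, false), f.symm (1, true), fun h => ?_, (hf _).2 ⟨1, fun x => ?_⟩⟩
  · have := f.symm.injective h
    simp at this
  · by_cases h1 : x = f.symm (1, false)
    · rw [h1, swap_apply_left]; simp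
    · by_cases h2 : x = f.symm (1, true)
      · rw [h2, swap_apply_right]; simp
      · rw [swap_apply_of_ne_of_ne h1 h2]; simp

end perm

/-- the product of `A` with a large symmetric group has a small subgroup which is core-free -/
theorem small_prod (A : Type) [Group A] [Finite A] (n : ℕ) (hn : Nat.card A + 7 ≤ n) :
    ∃ U : Subgroup (A × Perm (Fin n)), U.normalCore = ⊥ ∧
      8 * U.index * (U.index + 1) ≤ Nat.card (A × Perm (Fin n)) := by
  classical
  obtain ⟨m, rfl⟩ : ∃ m, n = m + 1 := ⟨n - 1, by omega⟩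
  -- the stabilizer of a point
  let act : A × Perm (Fin (m + 1)) →* Perm (A × Fin (m + 1)) :=
    { toFun := fun g => (Equiv.mulLeft g.1).prodCongr g.2
      map_one' := by ext x <;> simp
      map_mul' := by
        intro g g'
        ext x <;> simp [mul_assoc] }
  let ι : MulAction (A × Perm (Fin (m + 1))) (A × Fin (m + 1)) := MulAction.compHom _ act
  have hsm : ∀ (g : A × Perm (Fin (m + 1))) (x : A × Fin (m + 1)),
      g • x = (g.1 * x.1, g.2 x.2) := fun g x => rfl
  have htr : MulAction.IsPretransitive (A × Perm (Fin (m + 1))) (A × Fin (m + 1)) :=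
    ⟨fun x y => ⟨(y.1 * x.1⁻¹, swap x.2 y.2), by rw [hsm]; simp⟩⟩
  let U := MulAction.stabilizer (A × Perm (Fin (m + 1))) ((1 : A), (0 : Fin (m + 1)))
  have hidx : U.index = Nat.card A * (m + 1) := by
    rw [MulAction.index_stabilizer_of_transitive]
    rw [Nat.card_prod, Nat.card_eq_fintype_card (α := Fin (m + 1)), Fintype.card_fin]
  refine ⟨U, ?_, ?_⟩
  · rw [eq_bot_iff]
    intro g hg
    have h1 : ∀ b : A × Perm (Fin (m + 1)), b * g * b⁻¹ ∈ U := fun b => hg b
    have h2 : ∀ x : A × Fin (m + 1), g • x = x := by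
      intro x
      obtain ⟨b, hb⟩ := htr.exists_smul_eq x ((1 : A), (0 : Fin (m + 1)))
      have h3 := h1 b
      rw [MulAction.mem_stabilizer_iff, mul_smul, mul_smul, ← hb, inv_smul_smul] at h3
      exact smul_left_cancel b h3
    rw [Subgroup.mem_bot]
    refine Prod.ext ?_ ?_
    · have := congrArg Prod.fst (h2 ((1 : A), 0))
      rw [hsm] at this
      simpa using this
    · ext x
      have := congrArg Prod.snd (h2 ((1 : A), x))
      rw [hsm] at this
      simpa using congrArg Fin.val this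
  · rw [hidx, Nat.card_prod, Nat.card_perm, Nat.card_eq_fintype_card (α := Fin (m + 1)),
      Fintype.card_fin]
    have ha : 1 ≤ Nat.card A := Nat.card_pos
    have h3 : ∀ k : ℕ, 8 * (k + 8) * ((k + 1) * (k + 8) + 1) ≤ (k + 8).factorial := by
      intro k
      induction k with
      | zero => decide
      | succ k ih =>
        rw [show k + 1 + 8 = (k + 8) + 1 from rfl, Nat.factorial_succ]
        have h5 : (k + 1 + 1) * (k + 8 + 1) + 1 ≤ (k + 8) * ((k + 1) * (k + 8) + 1) := by
          have : (k + 8) * ((k + 1) * (k + 8) + 1) =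
              ((k + 1 + 1) * (k + 8 + 1) + 1) + (k ^ 3 + 16 * k ^ 2 + 70 * k + 53) := by ring
          omega
        calc 8 * (k + 8 + 1) * ((k + 1 + 1) * (k + 8 + 1) + 1)
            ≤ 8 * (k + 8 + 1) * ((k + 8) * ((k + 1) * (k + 8) + 1)) := by gcongr
          _ = (k + 8 + 1) * (8 * (k + 8) * ((k + 1) * (k + 8) + 1)) := by ring
          _ ≤ (k + 8 + 1) * (k + 8).factorial := by gcongr
    obtain ⟨k, hk⟩ : ∃ k, m + 1 = k + 8 := ⟨m - 7, by omega⟩
    have hak : Nat.card A ≤ k + 1 := by omega
    have h4 := h3 k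
    rw [hk]
    calc 8 * (Nat.card A * (k + 8)) * (Nat.card A * (k + 8) + 1)
        ≤ 8 * (Nat.card A * (k + 8)) * ((k + 1) * (k + 8) + 1) := by gcongr
      _ = Nat.card A * (8 * (k + 8) * ((k + 1) * (k + 8) + 1)) := by ring
      _ ≤ Nat.card A * (k + 8).factorial := by gcongr

end Run7.h202.MLB
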