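import Pool.Agent.TH444.ML.Done
import Pool.Agent.Run7.h202.MLB.Few
import Pool.Agent.Run7.h202.MLB.Fam
import Pool.Agent.Run7.h202.MLB.Wr

/-!
The asymptotic formula and the lower bound for `C₂ ≀ H`.
-/

set_option autoImplicit false
set_option linter.unusedSectionVars false

open NumberField Filter Topology Pool.Agent.TH444.ML

namespace Run7.h202.MLB

section

variable (K : Type) [Field K] [NumberField K] (H : Type) [Group H] [Finite H]

theorem disc_pos (n : ℕ) : 0 < ((|discr K| : ℤ) : ℝ) ^ n := by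
  have : (0 : ℤ) < |discr K| := abs_pos.2 (discr_ne_zero K)
  have : (0 : ℝ) < ((|discr K| : ℤ) : ℝ) := by exact_mod_cast this
  positivity

theorem asymp_fam (h2 : 2 ≤ Nat.card H) (hs : SmallRep H)
    (hne : (Gal K (AlgebraicClosure K) H).Nonempty) {n : ℕ} (G : Subgroup (Equiv.Perm (Fin n)))
    (hG : IsC2Wr H G) :
    ∃ c : ℝ, 0 < c ∧ Tendsto (fun X : ℝ =>
      (Nat.card (Quot (fun L L' : Cnt K G X => Nonempty (L.1 ≃ₐ[K] L'.1))) : ℝ) / X)
        atTop (𝓝 c) := by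
  obtain ⟨ι, _, U, hU, hc⟩ := hs
  have hsum := fewGalFam Pool.Agent.TH979.J3100.hermiteRel K (AlgebraicClosure K) H U hU hc
  obtain ⟨hfin, c, hc0, hlim⟩ := main_asymp (K := K) (Ω := AlgebraicClosure K) (H := H)
    (quadLim rest) quadPos quadUnif badSmall Pool.Agent.TH365.J3099.wrIff
    Pool.Agent.TH365.J3099.midUnique h2 hsum hne _ (disc_pos K n)
  have hpos : (0 : ℝ) < Nat.card H := by exact_mod_cast (by omega : 0 < Nat.card H)
  refine ⟨c / Nat.card H, by positivity, ?_⟩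
  have h := hlim.div_const (Nat.card H : ℝ)
  refine h.congr' ?_
  filter_upwards [eventually_gt_atTop (0 : ℝ)] with X hX
  have hX' := hfin X hX
  rw [cnt_eq K hG]
  have hq := quot_TT (K := K) (Ω := AlgebraicClosure K) (H := H)
    Pool.Agent.TH928.J3106.wrConj _ hX'
  rw [← hq]
  push_cast
  field_simp

theorem finite_TT (Z : ℝ) : (TT K (AlgebraicClosure K) H Z).Finite := by
  obtain ⟨C, hC⟩ := Pool.Agent.TH979.J3100.hermiteRel K (AlgebraicClosure K) (2 * Nat.card H)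
  refine (hC (max Z 1) (le_max_right _ _)).1.subset ?_
  rintro L ⟨h1, h2, h3⟩
  have hpos : 0 < Module.finrank K L := by
    rw [h1]
    have : 0 < Nat.card H := Nat.card_pos
    omega
  exact ⟨Module.finite_of_finrank_pos hpos, h1, h3.trans (le_max_left _ _)⟩

theorem lower (hne : (Gal K (AlgebraicClosure K) H).Nonempty) {n : ℕ}
    (G : Subgroup (Equiv.Perm (Fin n))) (hG : IsC2Wr H G) :
    ∃ c : ℝ, 0 < c ∧ ∀ᶠ X : ℝ in atTop, c * X ≤
      (Nat.card (Quot (fun L L' : Cnt K G X => Nonempty (L.1 ≃ₐ[K] L'.1))) : ℝ) := by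
  obtain ⟨M, hM⟩ := hne
  obtain ⟨c, hc0, hlim⟩ := lim_SM (H := H) (quadLim rest) quadPos quadUnif badSmall M hM _
    (disc_pos K n)
  have hpos : (0 : ℝ) < Nat.card H := by exact_mod_cast Nat.card_pos
  refine ⟨c / 2 / Nat.card H, by positivity, ?_⟩
  have h1 : ∀ᶠ X : ℝ in atTop, c / 2 <
      (Set.ncard (SM H M (X * ((|discr K| : ℤ) : ℝ) ^ n)) : ℝ) / X :=
    hlim.eventually (lt_mem_nhds (by linarith))
  filter_upwards [h1, eventually_gt_atTop (0 : ℝ)] with X hX hX0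
  have hfin := finite_TT K H (X * ((|discr K| : ℤ) : ℝ) ^ n)
  rw [cnt_eq K hG]
  have hq := quot_TT (K := K) (Ω := AlgebraicClosure K) (H := H)
    Pool.Agent.TH928.J3106.wrConj _ hfin
  have hsub : SM H M (X * ((|discr K| : ℤ) : ℝ) ^ n) ⊆
      TT K (AlgebraicClosure K) H (X * ((|discr K| : ℤ) : ℝ) ^ n) := by
    rw [TT_eq Pool.Agent.TH365.J3099.wrIff]
    exact Set.subset_iUnion (fun M : Gal K (AlgebraicClosure K) H =>
      SM H M.1 (X * ((|discr K| : ℤ) : ℝ) ^ n)) ⟨M, hM⟩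
  have h3 : (Set.ncard (SM H M (X * ((|discr K| : ℤ) : ℝ) ^ n)) : ℝ) ≤
      (Nat.card (Quot (fun L L' : TT K (AlgebraicClosure K) H
        (X * ((|discr K| : ℤ) : ℝ) ^ n) => Nonempty (L.1 ≃ₐ[K] L'.1))) : ℝ) * Nat.card H := by
    have h4 := Set.ncard_le_ncard hsub hfin
    rw [← hq] at h4
    exact_mod_cast h4
  rw [lt_div_iff₀ hX0] at hX
  rw [div_mul_eq_mul_div, div_le_iff₀ hpos]
  exact hX.le.trans h3

end

end Run7.h202.MLB
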